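import Pool.Agent.Helper74.CO.Goals

/-!
# CO: SX, SUB, LEN
-/

namespace Pool.Agent.Helper69.CO

open Finset

theorem t_SX : Pool.Agent.Helper74.CO.SX := by
  intro F _ _ X S hX hS
  have key : ∀ s ∈ S, #X ≤ 2 * #(X.filter (fun x => x + s ∈ X)) := by
    intro s hs
    have h1 := hS s hs
    have hinj : Function.Injective (fun x : F => x + s) := fun a b h => by simpa using h
    have h2 : #(X.image (fun x : F => x + s)) = #X := card_image_of_injective _ hinj
    have h3 := card_sdiff_add_card_inter (X.image (fun x : F => x + s)) X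
    have h4 : #(X.image (fun x : F => x + s) ∩ X) ≤ #(X.filter (fun x => x + s ∈ X)) := by
      have : X.image (fun x : F => x + s) ∩ X ⊆
          (X.filter (fun x => x + s ∈ X)).image (fun x : F => x + s) := by
        intro y hy
        rw [mem_inter, mem_image] at hy
        obtain ⟨⟨x, hx, rfl⟩, hy⟩ := hy
        exact mem_image.2 ⟨x, mem_filter.2 ⟨hx, hy⟩, rfl⟩
      exact (card_le_card this).trans card_image_le
    have h1' : 2 * #(X.image (fun x : F => x + s) \ X) ≤ #X := h1
    omega
  have h5 : #S * #X ≤ ∑ s ∈ S, 2 * #(X.filter (fun x => x + s ∈ X)) := by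
    have := card_nsmul_le_sum S (fun s => 2 * #(X.filter (fun x => x + s ∈ X))) (#X) key
    simpa using this
  have h6 : ∑ s ∈ S, #(X.filter (fun x => x + s ∈ X)) ≤ #X * #X := by
    have e1 : ∑ s ∈ S, #(X.filter (fun x => x + s ∈ X)) =
        #(S.sigma (fun s => X.filter (fun x => x + s ∈ X))) := (card_sigma _ _).symm
    rw [e1, ← card_product]
    apply card_le_card_of_injOn (fun p : (_ : F) × F => (p.2, p.2 + p.1))
    · intro p hp
      have hp' := mem_sigma.1 (mem_coe.1 hp)
      have hp2 := mem_filter.1 hp'.2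
      exact mem_coe.2 (mem_product.2 ⟨hp2.1, hp2.2⟩)
    · rintro ⟨s, x⟩ _ ⟨s', x'⟩ _ h
      simp only [Prod.mk.injEq] at h
      obtain ⟨h1, h2⟩ := h
      subst h1
      have : s = s' := by simpa using h2
      subst this
      rfl
  rw [← mul_sum] at h5
  have hX0 : 0 < #X := hX.card_pos
  have h7 : #S * #X ≤ (2 * #X) * #X := by
    calc #S * #X ≤ 2 * ∑ s ∈ S, #(X.filter (fun x => x + s ∈ X)) := h5
      _ ≤ 2 * (#X * #X) := Nat.mul_le_mul_left _ h6
      _ = (2 * #X) * #X := by ring
  exact Nat.le_of_mul_le_mul_right h7 hX0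

theorem sub_one (F : Type) [Field F] [DecidableEq F] (X : Finset F) (s t : F) :
    #(X.image (· + (s + t)) \ X) ≤ #(X.image (· + s) \ X) + #(X.image (· + t) \ X) := by
  have h : X.image (· + (s + t)) \ X ⊆
      (X.image (· + s) \ X).image (· + t) ∪ (X.image (· + t) \ X) := by
    intro y hy
    rw [mem_sdiff, mem_image] at hy
    obtain ⟨⟨x, hx, rfl⟩, hy⟩ := hy
    by_cases hxs : x + s ∈ X
    · refine mem_union_right _ (mem_sdiff.2 ⟨mem_image.2 ⟨x + s, hxs, ?_⟩, hy⟩)
      ring
    · refine mem_union_left _ (mem_image.2 ⟨x + s, mem_sdiff.2 ⟨mem_image.2 ⟨x, hx, rfl⟩, hxs⟩, ?_⟩)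
      ring
  exact (card_le_card h).trans ((card_union_le _ _).trans
    (Nat.add_le_add_right card_image_le _))

theorem sub_zero' (F : Type) [Field F] [DecidableEq F] (X : Finset F) :
    #(X.image (· + (0 : F)) \ X) = 0 := by
  rw [card_eq_zero, sdiff_eq_empty_iff_subset]
  intro y hy
  rw [mem_image] at hy
  obtain ⟨x, hx, rfl⟩ := hy
  simpa using hx

theorem sub_mul (F : Type) [Field F] [DecidableEq F] (X : Finset F) (s : F) (n : ℕ) :
    #(X.image (· + (n : F) * s) \ X) ≤ n * #(X.image (· + s) \ X) := by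
  induction n with
  | zero =>
    have h := sub_zero' F X
    have e : ((0 : ℕ) : F) * s = 0 := by simp
    rw [e, h]
    exact Nat.zero_le _
  | succ n ih =>
    have e : ((n + 1 : ℕ) : F) * s = (n : F) * s + s := by push_cast; ring
    rw [e]
    refine (sub_one F X _ _).trans ?_
    rw [Nat.add_mul, Nat.one_mul]
    exact Nat.add_le_add_right ih _

theorem t_SUB : Pool.Agent.Helper74.CO.SUB := by
  intro F _ _ X
  refine ⟨fun s t => sub_one F X s t, ?_⟩
  intro κ n s
  induction κ with
  | zero =>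
    rw [sum_range_zero, sum_range_zero, sub_zero' F X]
  | succ κ ih =>
    rw [sum_range_succ, sum_range_succ]
    refine (sub_one F X _ _).trans (Nat.add_le_add ih ?_)
    exact sub_mul F X (s κ) (n κ)

theorem t_LEN : Pool.Agent.Helper74.CO.LEN := by
  intro F _ X S T
  constructor
  · have h : X.image (S * T) \ X ⊆ (X.image T \ X).image S ∪ (X.image S \ X) := by
      intro y hy
      rw [mem_sdiff, mem_image] at hy
      obtain ⟨⟨x, hx, rfl⟩, hy⟩ := hy
      by_cases hxs : T x ∈ X
      · exact mem_union_right _ (mem_sdiff.2 ⟨mem_image.2 ⟨T x, hxs, rfl⟩, hy⟩)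
      · exact mem_union_left _ (mem_image.2 ⟨T x, mem_sdiff.2 ⟨mem_image.2 ⟨x, hx, rfl⟩, hxs⟩, rfl⟩)
    refine (card_le_card h).trans ((card_union_le _ _).trans ?_)
    rw [Nat.add_comm]
    exact Nat.add_le_add_left card_image_le _
  · have e1 : #(X.image (T⁻¹ : Equiv.Perm F) \ X) = #(X \ X.image T) := by
      have : (X.image (T⁻¹ : Equiv.Perm F) \ X).image T = X \ X.image T := by
        ext y
        simp only [mem_image, mem_sdiff]
        constructor
        · rintro ⟨x, ⟨⟨z, hz, rfl⟩, hx⟩, rfl⟩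
          refine ⟨by simpa using hz, ?_⟩
          rintro ⟨w, hw, hw'⟩
          exact hx ((T.injective hw') ▸ hw)
        · rintro ⟨hy, hy'⟩
          refine ⟨T⁻¹ y, ⟨⟨y, hy, rfl⟩, ?_⟩, by simp⟩
          intro h
          exact hy' ⟨T⁻¹ y, h, by simp⟩
      rw [← this, card_image_of_injective _ T.injective]
    rw [e1]
    have h2 : #(X.image T) = #X := card_image_of_injective _ T.injective
    have h3 := card_sdiff_add_card_inter (X.image T) X
    have h4 := card_sdiff_add_card_inter X (X.image T)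
    rw [inter_comm] at h4
    omega

end Pool.Agent.Helper69.CO
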